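import Pool.Agent.V11329.Vor.ThinDefs

/-! Anchored thinness of triangles implies the four-point condition. -/

set_option autoImplicit false

namespace Pool.Agent.V11329.Vor

variable {V : Type*} {G : SimpleGraph V}

/-- the graph distance as a real number -/
noncomputable def D (G : SimpleGraph V) (u v : V) : ℝ := G.dist u v

lemma D_comm (u v : V) : D G u v = D G v u := by unfold D; rw [SimpleGraph.dist_comm]

lemma D_nonneg (u v : V) : 0 ≤ D G u v := Nat.cast_nonneg _

lemma D_tri (hG : G.Connected) (u v w : V) : D G u w ≤ D G u v + D G v w := by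
  unfold D; exact_mod_cast hG.dist_triangle

lemma geod_left (hG : G.Connected) {x y : V} {p : G.Walk x y} (hp : IsGeod G p) {t : ℕ}
    (ht : t ≤ p.length) : G.dist x (p.getVert t) = t ∧ G.dist (p.getVert t) y = p.length - t := by
  have h1 : G.dist x (p.getVert t) ≤ t := by
    refine (SimpleGraph.dist_le (p.take t)).trans ?_
    rw [SimpleGraph.Walk.take_length]
    exact min_le_left _ _
  have h2 : G.dist (p.getVert t) y ≤ p.length - t := by
    refine (SimpleGraph.dist_le (p.drop t)).trans ?_
    rw [SimpleGraph.Walk.drop_length]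
  have h3 := hG.dist_triangle (u := x) (v := p.getVert t) (w := y)
  unfold IsGeod at hp
  omega

/-- the Gromov product -/
noncomputable def gp (G : SimpleGraph V) (x y z : V) : ℝ := (D G x y + D G x z - D G y z) / 2

lemma gp_comm (x y z : V) : gp G x y z = gp G x z y := by
  unfold gp; rw [D_comm y z]; ring

lemma gp_le_left (hG : G.Connected) (x y z : V) : gp G x y z ≤ D G x y := by
  unfold gp
  have := D_tri hG x y z
  linarith

lemma gp_nonneg (hG : G.Connected) (x y z : V) : 0 ≤ gp G x y z := by
  unfold gp
  have := D_tri hG y x z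
  rw [D_comm y x] at this
  linarith

lemma gp_le_dist (hG : G.Connected) {x y z w : V} {q : G.Walk y z} (hq : IsGeod G q)
    (hw : w ∈ q.support) : gp G x y z ≤ D G x w := by
  obtain ⟨t, ht, htl⟩ := SimpleGraph.Walk.mem_support_iff_exists_getVert.1 hw
  have h1 := geod_left hG hq htl
  rw [ht] at h1
  have h2 : D G y w + D G w z = D G y z := by
    unfold D
    have : G.dist y w + G.dist w z = G.dist y z := by
      unfold IsGeod at hq
      omega
    exact_mod_cast this
  have h3 := D_tri hG x w y
  have h4 := D_tri hG x w z
  unfold gp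
  rw [D_comm w y] at h3
  linarith

lemma fellow (hG : G.Connected) {x : V} {δ : ℝ} (h : AnchoredThin G x δ) {y z : V}
    {p : G.Walk x y} {r : G.Walk x z} (hp : IsGeod G p) (hr : IsGeod G r) {t : ℕ}
    (ht : (t : ℝ) < gp G x y z - δ) (hδ : 0 ≤ δ) : D G (p.getVert t) (r.getVert t) ≤ 2 * δ := by
  obtain ⟨q, hq⟩ := hG.exists_walk_length_eq_dist y z
  have hr' : IsGeod G r.reverse := by
    unfold IsGeod
    rw [SimpleGraph.Walk.length_reverse, SimpleGraph.dist_comm]
    exact hr
  have h1 := (h y z p q r.reverse hp hq hr').1 (p.getVert t)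
    (SimpleGraph.Walk.getVert_mem_support p t)
  obtain ⟨w, hw, hwd⟩ := h1
  have hty : (t : ℝ) ≤ D G x y := by have := gp_le_left hG x y z; linarith
  have htz : (t : ℝ) ≤ D G x z := by
    have := gp_le_left hG x z y
    rw [gp_comm] at this
    linarith
  have htp : t ≤ p.length := by unfold IsGeod at hp; rw [hp]; unfold D at hty; exact_mod_cast hty
  have htr : t ≤ r.length := by unfold IsGeod at hr; rw [hr]; unfold D at htz; exact_mod_cast htz
  have h2 := (geod_left hG hp htp).1
  have h3 := (geod_left hG hr htr).1
  have h2' : D G x (p.getVert t) = t := by unfold D; exact_mod_cast h2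
  have h3' : D G x (r.getVert t) = t := by unfold D; exact_mod_cast h3
  have hwd' : D G (p.getVert t) w ≤ δ := hwd
  rcases hw with hw | hw
  · exfalso
    have h4 := gp_le_dist hG (x := x) hq hw
    have h5 := D_tri hG x (p.getVert t) w
    linarith
  · rw [SimpleGraph.Walk.support_reverse, List.mem_reverse] at hw
    obtain ⟨s, hs, hsl⟩ := SimpleGraph.Walk.mem_support_iff_exists_getVert.1 hw
    have h4 := (geod_left hG hr hsl).1
    rw [hs] at h4
    have h4' : D G x w = s := by unfold D; exact_mod_cast h4
    -- |s - t| ≤ δ
    have h5 := D_tri hG x (p.getVert t) w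
    have h6 := D_tri hG x w (p.getVert t)
    rw [D_comm w (p.getVert t)] at h6
    have h7 : D G w (r.getVert t) ≤ |(s : ℝ) - t| := by
      rcases le_total s t with hst | hst
      · have h8 : G.dist w (r.getVert t) ≤ t - s := by
          have e1 := geod_left hG hr htr
          -- the vertex `w` lies on the initial part of `r`
          have e2 : (r.take t).getVert s = w := by
            rw [SimpleGraph.Walk.take_getVert, min_eq_right hst, hs]
          have e3 := SimpleGraph.dist_le ((r.take t).drop s)
          rw [SimpleGraph.Walk.drop_length, SimpleGraph.Walk.take_length,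
            min_eq_left htr] at e3
          rwa [e2] at e3
        unfold D
        rw [abs_sub_comm, abs_of_nonneg (by
          have : (s : ℝ) ≤ t := by exact_mod_cast hst
          linarith)]
        have : ((G.dist w (r.getVert t) : ℕ) : ℝ) ≤ ((t - s : ℕ) : ℝ) := by exact_mod_cast h8
        rwa [Nat.cast_sub hst] at this
      · have h8 : G.dist (r.getVert t) w ≤ s - t := by
          have e2 : (r.take s).getVert t = r.getVert t := by
            rw [SimpleGraph.Walk.take_getVert, min_eq_right hst]
          have e3 := SimpleGraph.dist_le ((r.take s).drop t)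
          rw [SimpleGraph.Walk.drop_length, SimpleGraph.Walk.take_length,
            min_eq_left hsl] at e3
          rwa [e2, hs] at e3
        rw [D_comm]
        unfold D
        rw [abs_of_nonneg (by
          have : (t : ℝ) ≤ s := by exact_mod_cast hst
          linarith)]
        have : ((G.dist (r.getVert t) w : ℕ) : ℝ) ≤ ((s - t : ℕ) : ℝ) := by exact_mod_cast h8
        rwa [Nat.cast_sub hst] at this
    have h9 : |(s : ℝ) - t| ≤ δ := by
      rw [abs_le]
      constructor <;> linarith
    have h10 := D_tri hG (p.getVert t) w (r.getVert t)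
    linarith

/-- the three-point inequality for Gromov products -/
lemma product_ineq (hG : G.Connected) {x : V} {δ : ℝ} (hδ : 0 ≤ δ) (h : AnchoredThin G x δ)
    (y z w : V) : min (gp G x y z) (gp G x z w) - (3 * δ + 1) ≤ gp G x y w := by
  by_cases hm : min (gp G x y z) (gp G x z w) - δ ≤ 0
  · have := gp_nonneg hG x y w
    linarith
  · push Not at hm
    set m := min (gp G x y z) (gp G x z w) - δ with hmdef
    obtain ⟨t, ht1, ht2⟩ : ∃ t : ℕ, (t : ℝ) < m ∧ m - 1 ≤ t := by
      refine ⟨⌈m⌉₊ - 1, ?_, ?_⟩
      · have h1 : 1 ≤ ⌈m⌉₊ := Nat.one_le_iff_ne_zero.2 (Nat.ceil_pos.2 hm).ne'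
        rw [Nat.cast_sub h1]
        have := Nat.ceil_lt_add_one hm.le
        push_cast
        linarith
      · have h1 : 1 ≤ ⌈m⌉₊ := Nat.one_le_iff_ne_zero.2 (Nat.ceil_pos.2 hm).ne'
        rw [Nat.cast_sub h1]
        have := Nat.le_ceil m
        push_cast
        linarith
    have hyz : (t : ℝ) < gp G x y z - δ := by
      have := min_le_left (gp G x y z) (gp G x z w)
      linarith
    have hzw : (t : ℝ) < gp G x z w - δ := by
      have := min_le_right (gp G x y z) (gp G x z w)
      linarith
    obtain ⟨p, hp⟩ := hG.exists_walk_length_eq_dist x y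
    obtain ⟨r, hr⟩ := hG.exists_walk_length_eq_dist x z
    obtain ⟨q, hq⟩ := hG.exists_walk_length_eq_dist x w
    have h1 := fellow hG h hp hr hyz hδ
    have h2 := fellow hG h hr hq hzw hδ
    have hty : (t : ℝ) ≤ D G x y := by have := gp_le_left hG x y z; linarith
    have htw : (t : ℝ) ≤ D G x w := by
      have := gp_le_left hG x w z
      rw [gp_comm] at this
      linarith
    have htp : t ≤ p.length := by rw [hp]; unfold D at hty; exact_mod_cast hty
    have htq : t ≤ q.length := by rw [hq]; unfold D at htw; exact_mod_cast htw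
    have h3 := (geod_left hG hp htp).2
    have h4 := (geod_left hG hq htq).2
    have h3' : D G (p.getVert t) y = D G x y - t := by
      unfold D
      rw [h3, Nat.cast_sub htp, hp]
    have h4' : D G (q.getVert t) w = D G x w - t := by
      unfold D
      rw [h4, Nat.cast_sub htq, hq]
    have h5 := D_tri hG y (p.getVert t) w
    have h6 := D_tri hG (p.getVert t) (q.getVert t) w
    have h7 := D_tri hG (p.getVert t) (r.getVert t) (q.getVert t)
    rw [D_comm y (p.getVert t)] at h5
    have hgw : gp G x y w = (D G x y + D G x w - D G y w) / 2 := rfl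
    rw [hgw]
    linarith

/-- the four-point condition -/
theorem four_point (hG : G.Connected) {x : V} {δ : ℝ} (hδ : 0 ≤ δ) (h : AnchoredThin G x δ)
    (y z w t : V) : D G y z + D G w t ≤
      max (D G y w + D G z t) (D G y t + D G z w) + 4 * (3 * δ + 1) := by
  have P := product_ineq hG hδ h
  set e := 3 * δ + 1 with he
  -- products
  have key : min (gp G x y w + gp G x z t) (gp G x y t + gp G x z w) - 2 * e
      ≤ gp G x y z + gp G x w t := by
    have a1 := P y w z
    have a2 := P y t z
    have b1 := P w y t
    have b2 := P w z t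
    rw [gp_comm x w z] at a1
    rw [gp_comm x t z] at a2
    rw [gp_comm x w y] at b1
    rw [gp_comm x w z] at b2
    set c := gp G x y w
    set d := gp G x z t
    set f := gp G x y t
    set g := gp G x z w
    rcases min_cases c g with ⟨h1, h1'⟩ | ⟨h1, h1'⟩ <;>
      rcases min_cases f d with ⟨h2, h2'⟩ | ⟨h2, h2'⟩ <;>
      rcases min_cases c f with ⟨h3, h3'⟩ | ⟨h3, h3'⟩ <;>
      rcases min_cases g d with ⟨h4, h4'⟩ | ⟨h4, h4'⟩ <;>
      rcases min_cases (c + d) (f + g) with ⟨h5, h5'⟩ | ⟨h5, h5'⟩ <;> linarith
  unfold gp at key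
  rw [D_comm z w] at *
  rcases le_total (D G y w + D G z t) (D G y t + D G w z) with h1 | h1
  · rw [max_eq_right h1]
    rw [min_eq_right] at key
    · linarith
    · linarith
  · rw [max_eq_left h1]
    rw [min_eq_left] at key
    · linarith
    · linarith

end Pool.Agent.V11329.Vor
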