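import Pool.Agent.Y979.HV.Main
import Pool.Agent.V11329.Vor.Thin

/-! Comparison of the hyperbolic and the Euclidean metric near height one, and the triangular
lattice. -/

set_option autoImplicit false

namespace Pool.Agent.V11329.Vor

open UpperHalfPlane Pool.Agent.Y979.HV

lemma sinh_le {x : ℝ} (h0 : 0 ≤ x) (h1 : x ≤ 1) : Real.sinh x ≤ x + x ^ 2 / 2 := by
  have h2 := Real.abs_exp_sub_one_sub_id_le (x := x) (by rw [abs_of_nonneg h0]; exact h1)
  have h3 := Real.add_one_le_exp (-x)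
  rw [Real.sinh_eq]
  have h4 := (abs_le.1 h2).2
  linarith

lemma dist_le_of {z w : ℍ} (hz : 399 / 400 ≤ z.im) (hw : 399 / 400 ≤ w.im) :
    dist z w ≤ 101 / 100 * dist (z : ℂ) w := by
  have h1 := sinh_half_dist z w
  have h2 : dist z w / 2 ≤ Real.sinh (dist z w / 2) := Real.self_le_sinh_iff.2 (by positivity)
  have h3 : 399 / 400 ≤ √(z.im * w.im) := by
    apply Real.le_sqrt_of_sq_le
    nlinarith
  rw [h1] at h2
  have h4 : dist (z : ℂ) w / (2 * √(z.im * w.im)) ≤ dist (z : ℂ) w / (2 * (399 / 400)) := by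
    gcongr
  have h5 : (0 : ℝ) ≤ dist (z : ℂ) w := dist_nonneg
  have h6 : dist (z : ℂ) w / (2 * (399 / 400)) = dist (z : ℂ) w * (200 / 399) := by ring
  rw [h6] at h4
  nlinarith

lemma E_le_of {z w : ℍ} (hz : z.im ≤ 401 / 400) (hw : w.im ≤ 401 / 400) (hd : dist z w ≤ 1 / 100) :
    dist (z : ℂ) w ≤ 101 / 100 * dist z w := by
  have h1 := sinh_half_dist z w
  have h0 : 0 ≤ dist z w := dist_nonneg
  have h2 := sinh_le (x := dist z w / 2) (by positivity) (by linarith)
  have hzi := z.im_pos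
  have hwi := w.im_pos
  have h3 : √(z.im * w.im) ≤ 401 / 400 := by
    apply Real.sqrt_le_iff.2
    constructor
    · norm_num
    · nlinarith
  have h4 : 0 < √(z.im * w.im) := Real.sqrt_pos.2 (by positivity)
  rw [eq_comm, div_eq_iff (by positivity)] at h1
  rw [h1]
  have h5 : Real.sinh (dist z w / 2) ≤ dist z w / 2 * (201 / 200) := by nlinarith
  have h6 : 0 ≤ Real.sinh (dist z w / 2) := Real.sinh_nonneg_iff.2 (by positivity)
  calc Real.sinh (dist z w / 2) * (2 * √(z.im * w.im))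
      ≤ (dist z w / 2 * (201 / 200)) * (2 * (401 / 400)) := by gcongr
    _ ≤ 101 / 100 * dist z w := by nlinarith

lemma im_near {z x : ℍ} (hz : |z.im - 1| ≤ 1 / 1000) (hd : dist z x ≤ 1 / 1000) :
    399 / 400 ≤ x.im ∧ x.im ≤ 401 / 400 := by
  have h1 := UpperHalfPlane.dist_log_im_le z x
  rw [Real.dist_eq] at h1
  have h2 := abs_le.1 (h1.trans hd)
  have hzi := z.im_pos
  have hxi := x.im_pos
  rw [abs_le] at hz
  have h3 : Real.exp (Real.log x.im) = x.im := Real.exp_log hxi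
  have h4 : Real.exp (Real.log z.im) = z.im := Real.exp_log hzi
  have h5 := Real.abs_exp_sub_one_sub_id_le (x := (1 / 1000 : ℝ)) (by rw [abs_of_nonneg] <;> norm_num)
  have h6 := (abs_le.1 h5).2
  have h7 := Real.add_one_le_exp (-(1 / 1000) : ℝ)
  constructor
  · have h8 : Real.exp (Real.log z.im + -(1 / 1000)) ≤ Real.exp (Real.log x.im) :=
      Real.exp_le_exp.2 (by linarith)
    rw [Real.exp_add, h3, h4] at h8
    nlinarith
  · have h8 : Real.exp (Real.log x.im) ≤ Real.exp (Real.log z.im + (1 / 1000)) :=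
      Real.exp_le_exp.2 (by linarith)
    rw [Real.exp_add, h3, h4] at h8
    nlinarith

/-- the quadratic form of the triangular lattice -/
def Qf (x y : ℝ) : ℝ := x ^ 2 + x * y + y ^ 2

lemma Qf_nonneg (x y : ℝ) : 0 ≤ Qf x y := by unfold Qf; nlinarith [sq_nonneg (x + y / 2), sq_nonneg y]

lemma Qf_ge_right (x y : ℝ) : 3 / 4 * y ^ 2 ≤ Qf x y := by
  unfold Qf; nlinarith [sq_nonneg (x + y / 2)]

lemma Qf_ge_left (x y : ℝ) : 3 / 4 * x ^ 2 ≤ Qf x y := by
  unfold Qf; nlinarith [sq_nonneg (y + x / 2)]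

/-- the covering radius of the triangular lattice -/
lemma covering (α β : ℝ) : ∃ a b : ℤ, |α - a| ≤ 1 ∧ |β - b| ≤ 1 ∧ Qf (α - a) (β - b) ≤ 1 / 3 := by
  set x := α - ⌊α⌋ with hx
  set y := β - ⌊β⌋ with hy
  have hx0 : 0 ≤ x := by rw [hx]; linarith [Int.floor_le α]
  have hx1 : x < 1 := by rw [hx]; linarith [Int.lt_floor_add_one α]
  have hy0 : 0 ≤ y := by rw [hy]; linarith [Int.floor_le β]
  have hy1 : y < 1 := by rw [hy]; linarith [Int.lt_floor_add_one β]
  have e1 : α - ((⌊α⌋ + 1 : ℤ) : ℝ) = x - 1 := by push_cast; ring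
  have e2 : β - ((⌊β⌋ + 1 : ℤ) : ℝ) = y - 1 := by push_cast; ring
  rcases le_total (x + y) 1 with h | h
  · by_cases h1 : Qf x y ≤ 1 / 3
    · exact ⟨⌊α⌋, ⌊β⌋, by rw [← hx, abs_of_nonneg hx0]; linarith,
        by rw [← hy, abs_of_nonneg hy0]; linarith, h1⟩
    · by_cases h2 : Qf (x - 1) y ≤ 1 / 3
      · exact ⟨⌊α⌋ + 1, ⌊β⌋, by rw [e1, abs_le]; constructor <;> linarith,
          by rw [← hy, abs_of_nonneg hy0]; linarith, by rw [e1]; exact h2⟩
      · refine ⟨⌊α⌋, ⌊β⌋ + 1, by rw [← hx, abs_of_nonneg hx0]; linarith,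
          by rw [e2, abs_le]; constructor <;> linarith, ?_⟩
        rw [e2, ← hx]
        by_contra h3
        push Not at h1 h2 h3
        unfold Qf at h1 h2 h3
        nlinarith [mul_nonneg hx0 (sub_nonneg.2 h2.le), mul_nonneg hy0 (sub_nonneg.2 h3.le),
          mul_nonneg (by linarith : (0:ℝ) ≤ 1 - x - y) (sub_nonneg.2 h1.le),
          sq_nonneg ((x - 1/3) + (y - 1/3) / 2), sq_nonneg (y - 1/3)]
  · by_cases h1 : Qf (x - 1) (y - 1) ≤ 1 / 3
    · exact ⟨⌊α⌋ + 1, ⌊β⌋ + 1, by rw [e1, abs_le]; constructor <;> linarith,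
        by rw [e2, abs_le]; constructor <;> linarith, by rw [e1, e2]; exact h1⟩
    · by_cases h2 : Qf (x - 1) y ≤ 1 / 3
      · exact ⟨⌊α⌋ + 1, ⌊β⌋, by rw [e1, abs_le]; constructor <;> linarith,
          by rw [← hy, abs_of_nonneg hy0]; linarith, by rw [e1]; exact h2⟩
      · refine ⟨⌊α⌋, ⌊β⌋ + 1, by rw [← hx, abs_of_nonneg hx0]; linarith,
          by rw [e2, abs_le]; constructor <;> linarith, ?_⟩
        rw [e2, ← hx]
        by_contra h3
        push Not at h1 h2 h3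
        unfold Qf at h1 h2 h3
        nlinarith [mul_nonneg (by linarith : (0:ℝ) ≤ 1 - y) (sub_nonneg.2 h2.le),
          mul_nonneg (by linarith : (0:ℝ) ≤ 1 - x) (sub_nonneg.2 h3.le),
          mul_nonneg (by linarith : (0:ℝ) ≤ x + y - 1) (sub_nonneg.2 h1.le),
          sq_nonneg ((x - 2/3) + (y - 2/3) / 2), sq_nonneg (y - 2/3)]

/-- half the square root of three -/
noncomputable def hh : ℝ := √3 / 2

lemma hh_sq : hh ^ 2 = 3 / 4 := by
  unfold hh
  rw [div_pow, Real.sq_sqrt (by norm_num)]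
  norm_num

lemma hh_pos : 0 < hh := by unfold hh; positivity

lemma hh_lower : 433 / 500 ≤ hh := by
  have := hh_sq
  have := hh_pos
  nlinarith

lemma hh_upper : hh ≤ 867 / 1000 := by
  have := hh_sq
  have := hh_pos
  nlinarith

/-- second lattice coordinate -/
noncomputable def be (s : ℝ) (z : ℍ) : ℝ := (z.im - 1) / (s * hh)

/-- first lattice coordinate -/
noncomputable def al (k s : ℝ) (z : ℍ) : ℝ := (z.re - k) / s - be s z / 2

/-- lattice points -/
noncomputable def pc (k s a b : ℝ) : ℂ := ⟨k + s * (a + b / 2), 1 + s * hh * b⟩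

lemma dist_pc {k s : ℝ} (hs : 0 < s) (z : ℍ) (a b : ℝ) :
    dist (z : ℂ) (pc k s a b) ^ 2 = s ^ 2 * Qf (al k s z - a) (be s z - b) := by
  rw [Complex.dist_eq, ← Complex.normSq_eq_norm_sq, Complex.normSq_apply]
  have e1 : ((z : ℂ) - pc k s a b).re = s * ((al k s z - a) + (be s z - b) / 2) := by
    show z.re - (k + s * (a + b / 2)) = _
    unfold al
    field_simp
    ring
  have e2 : ((z : ℂ) - pc k s a b).im = s * hh * (be s z - b) := by
    show z.im - (1 + s * hh * b) = _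
    unfold be
    have := hh_pos
    field_simp
    ring
  rw [e1, e2]
  unfold Qf
  have := hh_sq
  linear_combination (s ^ 2 * (be s z - b) ^ 2) * this

lemma dist_pc_pc (k s a b a' b' : ℝ) :
    dist (pc k s a b) (pc k s a' b') ^ 2 = s ^ 2 * Qf (a - a') (b - b') := by
  rw [Complex.dist_eq, ← Complex.normSq_eq_norm_sq, Complex.normSq_apply]
  have e1 : (pc k s a b - pc k s a' b').re = s * ((a - a') + (b - b') / 2) := by
    show k + s * (a + b / 2) - (k + s * (a' + b' / 2)) = _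
    ring
  have e2 : (pc k s a b - pc k s a' b').im = s * hh * (b - b') := by
    show 1 + s * hh * b - (1 + s * hh * b') = _
    ring
  rw [e1, e2]
  unfold Qf
  have := hh_sq
  linear_combination (s ^ 2 * (b - b') ^ 2) * this

lemma dist_pc_le {k s : ℝ} (hs : 0 < s) {z : ℍ} {a b c : ℝ} (hc : 0 ≤ c)
    (h : Qf (al k s z - a) (be s z - b) ≤ c ^ 2) : dist (z : ℂ) (pc k s a b) ≤ c * s := by
  have h1 := dist_pc hs z a b (k := k)
  apply abs_le_of_sq_le_sq' _ (by positivity) |>.2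
  rw [h1, mul_pow, mul_comm]
  exact mul_le_mul_of_nonneg_right h (by positivity)

lemma Qf_le_of_dist {k s : ℝ} (hs : 0 < s) {z : ℍ} {a b c : ℝ}
    (h : dist (z : ℂ) (pc k s a b) ≤ c * s) : Qf (al k s z - a) (be s z - b) ≤ c ^ 2 := by
  have h1 := dist_pc hs z a b (k := k)
  have h2 : dist (z : ℂ) (pc k s a b) ^ 2 ≤ (c * s) ^ 2 :=
    pow_le_pow_left₀ dist_nonneg h 2
  rw [h1, mul_pow, mul_comm (c ^ 2)] at h2
  exact le_of_mul_le_mul_left h2 (by positivity)

end Pool.Agent.V11329.Vor
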