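import Pool.Agent.V11329.Vor.Metric

/-! Planted pieces of the triangular lattice and the graph distances inside them. -/

set_option autoImplicit false

namespace Pool.Agent.V11329.Vor

open UpperHalfPlane Pool.Agent.Y979.HV

/-- the lattice spacing -/
noncomputable def sp (n : ℕ) : ℝ := 1 / (100000 * n)

lemma sp_pos {n : ℕ} (hn : 1 ≤ n) : 0 < sp n := by
  unfold sp
  have : (0 : ℝ) < n := by exact_mod_cast hn
  positivity

lemma sp_mul {n : ℕ} (hn : 1 ≤ n) : sp n * n = 1 / 100000 := by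
  unfold sp
  have : (0 : ℝ) < n := by exact_mod_cast hn
  field_simp

lemma sp_le {n : ℕ} (hn : 2 ≤ n) : sp n ≤ 1 / 200000 := by
  have h1 := sp_mul (n := n) (by omega)
  have h2 : (2 : ℝ) ≤ n := by exact_mod_cast hn
  have h3 := sp_pos (n := n) (by omega)
  nlinarith

/-- the small square around a lattice point -/
noncomputable def tile (k : ℝ) (n : ℕ) (a b : ℤ) : Set ℍ :=
  box (Set.Ico (k + sp n * (a + b / 2) - sp n / 100) (k + sp n * (a + b / 2) + sp n / 100))
    (1 + sp n * hh * b - sp n / 100) (1 + sp n * hh * b + sp n / 100)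

/-- the large box around the planted piece -/
noncomputable def region (k : ℝ) : Set ℍ := box (Set.Ico (k - 1 / 4) (k + 1 / 4)) (1 / 2) 2

/-- the point set is a perturbed piece of the triangular lattice in the large box -/
structure Planted (A : Set ℍ) (k : ℝ) (n : ℕ) : Prop where
  one : ∀ a b : ℤ, |a| ≤ 10 * n → |b| ≤ 10 * n → (A ∩ tile k n a b).encard = 1
  none : ∀ x ∈ A, x ∈ region k → ∃ a b : ℤ, |a| ≤ 10 * n ∧ |b| ≤ 10 * n ∧ x ∈ tile k n a b

/-- an inner box -/
def inn (k c : ℝ) (z : ℍ) : Prop := |z.re - k| ≤ c ∧ |z.im - 1| ≤ c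

lemma tile_dist {k : ℝ} {n : ℕ} (hn : 1 ≤ n) {a b : ℤ} {x : ℍ} (hx : x ∈ tile k n a b) :
    dist (x : ℂ) (pc k (sp n) a b) ≤ 71 / 5000 * sp n := by
  have hs := sp_pos hn
  obtain ⟨⟨h1, h2⟩, h3, h4⟩ := hx
  have h5 : dist (x : ℂ) (pc k (sp n) a b) ^ 2 ≤ (71 / 5000 * sp n) ^ 2 := by
    rw [Complex.dist_eq, ← Complex.normSq_eq_norm_sq, Complex.normSq_apply]
    have e1 : |((x : ℂ) - pc k (sp n) a b).re| ≤ sp n / 100 := by
      show |x.re - (k + sp n * (a + b / 2))| ≤ _
      rw [abs_le]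
      constructor <;> linarith
    have e2 : |((x : ℂ) - pc k (sp n) a b).im| ≤ sp n / 100 := by
      show |x.im - (1 + sp n * hh * b)| ≤ _
      rw [abs_le]
      constructor <;> linarith
    have e3 := abs_mul_abs_self ((x : ℂ) - pc k (sp n) a b).re
    have e4 := abs_mul_abs_self ((x : ℂ) - pc k (sp n) a b).im
    have e5 := abs_nonneg ((x : ℂ) - pc k (sp n) a b).re
    have e6 := abs_nonneg ((x : ℂ) - pc k (sp n) a b).im
    rw [← e3, ← e4]
    nlinarith
  exact (abs_le_of_sq_le_sq' h5 (by positivity)).2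

lemma coords {k : ℝ} {n : ℕ} (hn : 1 ≤ n) {z : ℍ} (hz : inn k (5 / 100000) z) :
    |al k (sp n) z| ≤ 8 * n ∧ |be (sp n) z| ≤ 6 * n := by
  have hs := sp_pos hn
  have hsn := sp_mul hn
  have hl := hh_lower
  have hp := hh_pos
  have h1 : |be (sp n) z| ≤ 6 * n := by
    unfold be
    rw [abs_div, abs_of_pos (by positivity : 0 < sp n * hh), div_le_iff₀ (by positivity)]
    refine hz.2.trans ?_
    have : 6 * (n : ℝ) * (sp n * hh) = 6 * hh * (sp n * n) := by ring
    rw [this, hsn]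
    linarith
  refine ⟨?_, h1⟩
  unfold al
  have h2 : |(z.re - k) / sp n| ≤ 5 * n := by
    rw [abs_div, abs_of_pos hs, div_le_iff₀ hs]
    refine hz.1.trans ?_
    have : 5 * (n : ℝ) * sp n = 5 * (sp n * n) := by ring
    rw [this, hsn]
    norm_num
  rw [abs_le] at h1 h2 ⊢
  constructor <;> linarith [h1.1, h1.2, h2.1, h2.2]

lemma inn_im {k c : ℝ} (hc : c ≤ 1 / 1000) {z : ℍ} (hz : inn k c z) :
    |z.im - 1| ≤ 1 / 1000 := hz.2.trans hc

lemma tile_im {k : ℝ} {n : ℕ} (hn : 1 ≤ n) {a b : ℤ} (hb : |b| ≤ 10 * n) {x : ℍ}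
    (hx : x ∈ tile k n a b) : 399 / 400 ≤ x.im ∧ x.im ≤ 401 / 400 := by
  have hs := sp_pos hn
  have hsn := sp_mul hn
  have hn1 : (1 : ℝ) ≤ n := by exact_mod_cast hn
  have hb' : |(b : ℝ)| ≤ 10 * n := by exact_mod_cast hb
  have hu := hh_upper
  have hp := hh_pos
  obtain ⟨-, h3, h4⟩ := hx
  have h5 : |sp n * hh * b| ≤ 867 / 100 * (1 / 100000) := by
    rw [abs_mul, abs_of_pos (by positivity : 0 < sp n * hh)]
    calc sp n * hh * |(b : ℝ)| ≤ sp n * (867 / 1000) * (10 * n) := by gcongr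
      _ = 867 / 100 * (sp n * n) := by ring
      _ = _ := by rw [hsn]
  rw [abs_le] at h5
  have h6 : sp n ≤ 1 / 100000 := by nlinarith
  constructor <;> linarith [h5.1, h5.2]

variable {A : Set ℍ} {k : ℝ} {n : ℕ}

lemma Planted.cover (hA : Planted A k n) (hn : 1 ≤ n) {z : ℍ} (hz : inn k (5 / 100000) z) :
    ∃ x ∈ A, dist z x ≤ 3 / 5 * sp n := by
  have hs := sp_pos hn
  have hn1 : (1 : ℝ) ≤ n := by exact_mod_cast hn
  obtain ⟨h1, h2⟩ := coords hn hz
  obtain ⟨a, b, ha, hb, hQ⟩ := covering (al k (sp n) z) (be (sp n) z)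
  have ha' : |a| ≤ 10 * n := by
    have : |(a : ℝ)| ≤ 10 * n := by
      rw [abs_le] at ha h1 ⊢
      constructor <;> linarith [ha.1, ha.2, h1.1, h1.2]
    exact_mod_cast this
  have hb' : |b| ≤ 10 * n := by
    have : |(b : ℝ)| ≤ 10 * n := by
      rw [abs_le] at hb h2 ⊢
      constructor <;> linarith [hb.1, hb.2, h2.1, h2.2]
    exact_mod_cast this
  obtain ⟨x, hx⟩ := Set.encard_eq_one.1 (hA.one a b ha' hb')
  have hxm : x ∈ A ∩ tile k n a b := by rw [hx]; rfl
  refine ⟨x, hxm.1, ?_⟩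
  have h3 := tile_dist hn hxm.2
  have h4 : dist (z : ℂ) (pc k (sp n) a b) ≤ 2887 / 5000 * sp n :=
    dist_pc_le hs (by norm_num) (hQ.trans (by norm_num))
  have h5 := dist_triangle_right (z : ℂ) x (pc k (sp n) a b)
  have h6 := tile_im hn hb' hxm.2
  have h7 := abs_le.1 (inn_im (by norm_num) hz)
  have h8 := dist_le_of (z := z) (w := x) (by linarith [h7.1]) h6.1
  linarith

lemma Planted.near (hA : Planted A k n) (hn : 2 ≤ n) {z x : ℍ} (hz : inn k (5 / 100000) z)
    (hx : x ∈ A) (hc : z ∈ cell A x) : dist z x ≤ 3 / 5 * sp n ∧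
      ∃ a b : ℤ, |a| ≤ 10 * n ∧ |b| ≤ 10 * n ∧ x ∈ tile k n a b ∧
        Qf (al k (sp n) z - a) (be (sp n) z - b) ≤ (63 / 100) ^ 2 := by
  have hs := sp_pos (n := n) (by omega)
  have hs2 := sp_le hn
  obtain ⟨y, hy, hyd⟩ := hA.cover (by omega) hz
  have h1 : dist z x ≤ 3 / 5 * sp n := (hc y hy).trans hyd
  refine ⟨h1, ?_⟩
  have h2 := im_near (inn_im (by norm_num) hz) (h1.trans (by linarith) : dist z x ≤ 1 / 1000)
  have h7 := abs_le.1 (inn_im (by norm_num) hz)
  have h3 := E_le_of (z := z) (w := x) (by linarith [h7.2]) h2.2 (h1.trans (by linarith))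
  have h4 : |x.re - z.re| ≤ dist (z : ℂ) x := by
    rw [dist_comm, Complex.dist_eq]
    exact Complex.abs_re_le_norm ((x : ℂ) - z)
  have h5 : x ∈ region k := by
    refine ⟨⟨?_, ?_⟩, ?_, ?_⟩
    · have := abs_le.1 h4
      have := abs_le.1 hz.1
      linarith [this.1, this.2]
    · have := abs_le.1 h4
      have := abs_le.1 hz.1
      linarith [this.1, this.2]
    · linarith [h2.1]
    · linarith [h2.2]
  obtain ⟨a, b, ha, hb, hab⟩ := hA.none x hx h5
  refine ⟨a, b, ha, hb, hab, ?_⟩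
  have h6 := tile_dist (by omega) hab
  have h8 := dist_triangle (z : ℂ) x (pc k (sp n) a b)
  apply Qf_le_of_dist hs
  linarith

lemma Planted.step (hA : Planted A k n) (hn : 2 ≤ n) {u v : A} (hu : inn k (4 / 100000) (u : ℍ))
    (huv : (voronoiGraph A).Adj u v) : dist (u : ℍ) v ≤ 6 / 5 * sp n := by
  have hs := sp_pos (n := n) (by omega)
  have hs2 := sp_le hn
  obtain ⟨z, hzu, hzv⟩ := exists_touch huv
  have key : dist (u : ℍ) z ≤ 3 / 5 * sp n := by
    by_contra hcon
    push Not at hcon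
    obtain ⟨w, hw1, hw2⟩ := exists_on_segment (z := (u : ℍ)) (w := z)
      (s := min (dist (u : ℍ) z) (6 / 5 * sp n)) (by positivity) (min_le_left _ _)
    have hwc : w ∈ cell A u := mem_cell_of_between hzu (by rw [hw1, hw2]; ring)
    have hwd : dist (u : ℍ) w ≤ 6 / 5 * sp n := hw1 ▸ min_le_right _ _
    have hwd' : 3 / 5 * sp n < dist (u : ℍ) w := by
      rw [hw1]
      exact lt_min hcon (by linarith)
    have hui : |(u : ℍ).im - 1| ≤ 1 / 1000 := inn_im (by norm_num) hu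
    have h2 := im_near hui (hwd.trans (by linarith) : dist (u : ℍ) w ≤ 1 / 1000)
    have h7 := abs_le.1 hui
    have h3 := E_le_of (z := (u : ℍ)) (w := w) (by linarith [h7.2]) h2.2 (hwd.trans (by linarith))
    have h4 : |w.re - (u : ℍ).re| ≤ dist ((u : ℍ) : ℂ) w := by
      rw [dist_comm, Complex.dist_eq]
      exact Complex.abs_re_le_norm ((w : ℂ) - ((u : ℍ) : ℂ))
    have h5 : |w.im - (u : ℍ).im| ≤ dist ((u : ℍ) : ℂ) w := by
      rw [dist_comm, Complex.dist_eq]
      exact Complex.abs_im_le_norm ((w : ℂ) - ((u : ℍ) : ℂ))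
    have hwi : inn k (5 / 100000) w := by
      obtain ⟨e1, e2⟩ := hu
      rw [abs_le] at e1 e2 h4 h5
      constructor
      · rw [abs_le]
        constructor <;> linarith [e1.1, e1.2, h4.1, h4.2]
      · rw [abs_le]
        constructor <;> linarith [e2.1, e2.2, h5.1, h5.2]
    have h6 := (hA.near hn hwi u.2 hwc).1
    rw [dist_comm] at h6
    linarith
  have h1 := hzv u u.2
  have h2 := dist_triangle (u : ℍ) z v
  rw [dist_comm z u] at h1
  linarith

/-- the centre of the planted piece -/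
def ctr (k : ℝ) : ℍ := ⟨⟨k, 1⟩, one_pos⟩

lemma inn_of_dist {z : ℍ} (h : dist (ctr k) z ≤ 39 / 1000000) : inn k (4 / 100000) z := by
  have hci : |(ctr k).im - 1| ≤ 1 / 1000 := by
    show |(1 : ℝ) - 1| ≤ _
    norm_num
  have h2 := im_near hci (h.trans (by norm_num) : dist (ctr k) z ≤ 1 / 1000)
  have h3 := E_le_of (z := ctr k) (w := z) (by show (1 : ℝ) ≤ _; norm_num) h2.2
    (h.trans (by norm_num))
  have h4 : |z.re - k| ≤ dist ((ctr k : ℍ) : ℂ) z := by
    rw [dist_comm, Complex.dist_eq]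
    exact Complex.abs_re_le_norm ((z : ℂ) - ((ctr k : ℍ) : ℂ))
  have h5 : |z.im - 1| ≤ dist ((ctr k : ℍ) : ℂ) z := by
    rw [dist_comm, Complex.dist_eq]
    exact Complex.abs_im_le_norm ((z : ℂ) - ((ctr k : ℍ) : ℂ))
  exact ⟨h4.trans (by linarith), h5.trans (by linarith)⟩

lemma Planted.walk_bound (hA : Planted A k n) (hn : 2 ≤ n) {u v : A}
    (p : (voronoiGraph A).Walk u v) :
    dist (ctr k) u + 6 / 5 * sp n * p.length ≤ 39 / 1000000 →
      dist (u : ℍ) v ≤ 6 / 5 * sp n * p.length := by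
  have hs := sp_pos (n := n) (by omega)
  induction p with
  | nil => intro _; simp
  | @cons u w v huw q ih =>
    intro h
    rw [SimpleGraph.Walk.length_cons] at h ⊢
    push_cast at h ⊢
    have hq : (0 : ℝ) ≤ q.length := Nat.cast_nonneg _
    have h1 : inn k (4 / 100000) (u : ℍ) := by
      apply inn_of_dist
      have : 0 ≤ 6 / 5 * sp n * ((q.length : ℝ) + 1) := by positivity
      linarith
    have h2 := hA.step hn h1 huw
    have h3 := dist_triangle (ctr k) (u : ℍ) w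
    have h4 := ih (by nlinarith)
    have h5 := dist_triangle (u : ℍ) w v
    nlinarith

lemma Planted.dist_lower (hA : Planted A k n) (hn : 2 ≤ n) (hG : (voronoiGraph A).Connected)
    {u v : A} (hu : dist (ctr k) u ≤ 19 / 1000000) (huv : dist (u : ℍ) v ≤ 20 / 1000000) :
    dist (u : ℍ) v ≤ 6 / 5 * sp n * (voronoiGraph A).dist u v := by
  by_contra hcon
  push Not at hcon
  obtain ⟨p, hp⟩ := hG.exists_walk_length_eq_dist u v
  rw [← hp] at hcon
  have := hA.walk_bound hn p (by linarith)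
  linarith

end Pool.Agent.V11329.Vor
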