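import Pool.Agent.V11329.Vor.Violation

/-! Planted pieces occur almost surely. -/

set_option autoImplicit false

namespace Pool.Agent.V11329.Vor

open UpperHalfPlane Pool.Agent.Y979.HV MeasureTheory ProbabilityTheory
open scoped ENNReal

/-- the indices of the tiles -/
abbrev Tidx (n : ℕ) : Type := {q : ℤ × ℤ // q ∈ Finset.Icc (-(10 * (n : ℤ))) (10 * n) ×ˢ
  Finset.Icc (-(10 * (n : ℤ))) (10 * n)}

lemma Tidx.abs {n : ℕ} (q : Tidx n) : |q.1.1| ≤ 10 * n ∧ |q.1.2| ≤ 10 * n := by
  have := q.2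
  rw [Finset.mem_product, Finset.mem_Icc, Finset.mem_Icc] at this
  constructor <;> rw [abs_le] <;> constructor <;> linarith [this.1.1, this.1.2, this.2.1, this.2.2]

/-- the tiles and the rest of the large box -/
noncomputable def atom (n : ℕ) (i : ℕ × Option (Tidx n)) : Set ℍ :=
  match i.2 with
  | some q => tile i.1 n q.1.1 q.1.2
  | none => region i.1 \ ⋃ q : Tidx n, tile i.1 n q.1.1 q.1.2

lemma measurableSet_tile (k : ℝ) (n : ℕ) (a b : ℤ) : MeasurableSet (tile k n a b) :=
  measurableSet_box measurableSet_Ico _ _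

lemma measurableSet_region (k : ℝ) : MeasurableSet (region k) :=
  measurableSet_box measurableSet_Ico _ _

lemma measurableSet_atom (n : ℕ) (i : ℕ × Option (Tidx n)) : MeasurableSet (atom n i) := by
  rcases i with ⟨k, _ | q⟩
  · exact (measurableSet_region _).diff (MeasurableSet.iUnion fun q => measurableSet_tile _ _ _ _)
  · exact measurableSet_tile _ _ _ _

lemma tile_subset {k : ℝ} {n : ℕ} (hn : 1 ≤ n) {a b : ℤ} (ha : |a| ≤ 10 * n) (hb : |b| ≤ 10 * n) :
    tile k n a b ⊆ region k := by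
  intro x hx
  have h1 := tile_im hn hb hx
  have hs := sp_pos hn
  have hsn := sp_mul hn
  have hn1 : (1 : ℝ) ≤ n := by exact_mod_cast hn
  have hb' : |(b : ℝ)| ≤ 10 * n := by exact_mod_cast hb
  have ha' : |(a : ℝ)| ≤ 10 * n := by exact_mod_cast ha
  obtain ⟨⟨h2, h3⟩, -⟩ := hx
  rw [abs_le] at ha' hb'
  have h4 : |sp n * ((a : ℝ) + b / 2)| ≤ 15 / 100000 := by
    rw [abs_mul, abs_of_pos hs]
    have : |(a : ℝ) + b / 2| ≤ 15 * n := by
      rw [abs_le]; constructor <;> linarith [ha'.1, ha'.2, hb'.1, hb'.2]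
    calc sp n * |(a : ℝ) + b / 2| ≤ sp n * (15 * n) := by gcongr
      _ = 15 * (sp n * n) := by ring
      _ = _ := by rw [hsn]; norm_num
  rw [abs_le] at h4
  have h6 : sp n ≤ 1 / 100000 := by nlinarith
  refine ⟨⟨?_, ?_⟩, ?_, ?_⟩ <;> linarith [h4.1, h4.2, h1.1, h1.2]

lemma atom_subset {n : ℕ} (hn : 1 ≤ n) (i : ℕ × Option (Tidx n)) : atom n i ⊆ region i.1 := by
  rcases i with ⟨k, _ | q⟩
  · exact Set.sdiff_subset
  · exact tile_subset hn q.abs.1 q.abs.2

lemma region_inj {k k' : ℕ} {z : ℍ} (h : z ∈ region k) (h' : z ∈ region k') : k = k' := by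
  obtain ⟨⟨h1, h2⟩, -⟩ := h
  obtain ⟨⟨h1', h2'⟩, -⟩ := h'
  have a1 : (k : ℝ) < k' + 1 := by linarith
  have a2 : (k' : ℝ) < k + 1 := by linarith
  have b1 : k < k' + 1 := by exact_mod_cast a1
  have b2 : k' < k + 1 := by exact_mod_cast a2
  omega

lemma tile_inj {k : ℝ} {n : ℕ} (hn : 1 ≤ n) {a b a' b' : ℤ} {z : ℍ} (h : z ∈ tile k n a b)
    (h' : z ∈ tile k n a' b') : a = a' ∧ b = b' := by
  obtain ⟨h1, h2⟩ := tile_coords hn h
  obtain ⟨h1', h2'⟩ := tile_coords hn h'
  rw [abs_lt] at h1 h2 h1' h2'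
  constructor
  · have a1 : (a : ℝ) < a' + 1 := by linarith [h1.1, h1.2, h1'.1, h1'.2]
    have a2 : (a' : ℝ) < a + 1 := by linarith [h1.1, h1.2, h1'.1, h1'.2]
    have b1 : a < a' + 1 := by exact_mod_cast a1
    have b2 : a' < a + 1 := by exact_mod_cast a2
    omega
  · have a1 : (b : ℝ) < b' + 1 := by linarith [h2.1, h2.2, h2'.1, h2'.2]
    have a2 : (b' : ℝ) < b + 1 := by linarith [h2.1, h2.2, h2'.1, h2'.2]
    have b1 : b < b' + 1 := by exact_mod_cast a1
    have b2 : b' < b + 1 := by exact_mod_cast a2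
    omega

lemma atom_disjoint {n : ℕ} (hn : 1 ≤ n) :
    Pairwise (fun i j : ℕ × Option (Tidx n) => Disjoint (atom n i) (atom n j)) := by
  rintro ⟨p, α⟩ ⟨p', α'⟩ hne
  by_cases hp : p = p'
  · subst hp
    rcases α with _ | q <;> rcases α' with _ | q'
    · exact absurd rfl hne
    · rw [Set.disjoint_left]
      rintro z ⟨_, hz⟩ hz'
      exact hz (Set.mem_iUnion.mpr ⟨q', hz'⟩)
    · rw [Set.disjoint_left]
      rintro z hz' ⟨_, hz⟩
      exact hz (Set.mem_iUnion.mpr ⟨q, hz'⟩)
    · rw [Set.disjoint_left]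
      intro z hz hz'
      have := tile_inj hn hz hz'
      apply hne
      have h2 : q = q' := Subtype.ext (Prod.ext this.1 this.2)
      rw [h2]
  · rw [Set.disjoint_left]
    intro z hz hz'
    exact hp (region_inj (atom_subset hn _ hz) (atom_subset hn _ hz'))

lemma volume_region (k : ℝ) : volume (region k) = ENNReal.ofReal (3 / 4) := by
  unfold region
  rw [volume_box measurableSet_Ico (by norm_num) (by norm_num), Real.volume_Ico,
    ← ENNReal.ofReal_mul (by norm_num)]
  congr 1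
  ring

/-- the area of a tile -/
noncomputable def tv (n : ℕ) (b : ℤ) : ℝ :=
  (sp n / 50) * (1 / (1 + sp n * hh * b - sp n / 100) - 1 / (1 + sp n * hh * b + sp n / 100))

lemma tile_low {n : ℕ} (hn : 1 ≤ n) {b : ℤ} (hb : |b| ≤ 10 * n) :
    0 < 1 + sp n * hh * b - sp n / 100 := by
  have hs := sp_pos hn
  have hsn := sp_mul hn
  have hn1 : (1 : ℝ) ≤ n := by exact_mod_cast hn
  have hb' : |(b : ℝ)| ≤ 10 * n := by exact_mod_cast hb
  have hu := hh_upper
  have hp := hh_pos
  have h5 : |sp n * hh * b| ≤ 867 / 100 * (1 / 100000) := by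
    rw [abs_mul, abs_of_pos (by positivity : 0 < sp n * hh)]
    calc sp n * hh * |(b : ℝ)| ≤ sp n * (867 / 1000) * (10 * n) := by gcongr
      _ = 867 / 100 * (sp n * n) := by ring
      _ = _ := by rw [hsn]
  rw [abs_le] at h5
  have h6 : sp n ≤ 1 / 100000 := by nlinarith
  linarith [h5.1]

lemma tv_pos {n : ℕ} (hn : 1 ≤ n) {b : ℤ} (hb : |b| ≤ 10 * n) : 0 < tv n b := by
  have hs := sp_pos hn
  have h1 := tile_low hn hb
  unfold tv
  have h2 : 1 / (1 + sp n * hh * b + sp n / 100) < 1 / (1 + sp n * hh * b - sp n / 100) := by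
    apply one_div_lt_one_div_of_lt h1
    linarith
  have := sub_pos.2 h2
  positivity

lemma volume_tile {k : ℝ} {n : ℕ} (hn : 1 ≤ n) {a b : ℤ} (hb : |b| ≤ 10 * n) :
    volume (tile k n a b) = ENNReal.ofReal (tv n b) := by
  have hs := sp_pos hn
  unfold tile tv
  rw [volume_box measurableSet_Ico (tile_low hn hb) (by linarith), Real.volume_Ico,
    ← ENNReal.ofReal_mul (by linarith)]
  congr 1
  ring

variable {Ω : Type*} [MeasurableSpace Ω] {P : Measure Ω} {lam : ℝ} {Q : Ω → Set ℍ}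

/-- independence of the counts for an arbitrary index type -/
theorem iIndep_counts (hQ : IsPoissonProcess P lam Q) {ι : Type*} {B : ι → Set ℍ}
    (hB : ∀ i, MeasurableSet (B i)) (hd : Pairwise (fun i j => Disjoint (B i) (B j))) :
    iIndepFun (fun i ω => (Q ω ∩ B i).encard) P := by
  classical
  rw [iIndepFun_iff_measure_inter_preimage_eq_mul]
  intro S s hs
  let e : Fin S.card ≃ S := S.equivFin.symm
  have h1 := hQ.indep_count S.card (fun k => B (e k)) (fun k => hB _) (fun k l hkl => by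
    apply hd
    intro h
    exact hkl (e.injective (Subtype.ext h)))
  rw [iIndepFun_iff_measure_inter_preimage_eq_mul] at h1
  have h2 := h1 Finset.univ (sets := fun k => s (e k)) (fun k _ => hs _ (e k).2)
  have e1 : (⋂ i ∈ S, (fun ω => (Q ω ∩ B i).encard) ⁻¹' s i) =
      ⋂ k ∈ (Finset.univ : Finset (Fin S.card)),
        (fun ω => (Q ω ∩ B (e k)).encard) ⁻¹' s (e k) := by
    ext ω
    simp only [Set.mem_iInter, Finset.mem_univ, true_imp_iff]
    constructor
    · intro h k
      exact h _ (e k).2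
    · intro h i hi
      have := h (e.symm ⟨i, hi⟩)
      rw [Equiv.apply_symm_apply] at this
      exact this
  rw [e1, h2, Finset.prod_equiv e (t := Finset.univ)
    (g := fun i : S => P ((fun ω => (Q ω ∩ B i).encard) ⁻¹' s i)) (by simp) (fun _ _ => rfl)]
  exact Finset.prod_coe_sort S (fun i => P ((fun ω => (Q ω ∩ B i).encard) ⁻¹' s i))

/-- the prescribed counts -/
def tgt {n : ℕ} (α : Option (Tidx n)) : Set ℕ∞ :=
  match α with
  | some _ => {1}
  | none => {0}

/-- the event that the piece with index `k` is planted -/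
def evt (Q : Ω → Set ℍ) (n k : ℕ) : Set Ω :=
  ⋂ α ∈ (Finset.univ : Finset (Option (Tidx n))), (fun ω => (Q ω ∩ atom n (k, α)).encard) ⁻¹' tgt α

lemma evt_planted {n k : ℕ} {ω : Ω} (h : ω ∈ evt Q n k) : Planted (Q ω) k n := by
  unfold evt at h
  rw [Set.mem_iInter₂] at h
  constructor
  · intro a b ha hb
    rw [abs_le] at ha hb
    have hq : ((a, b) : ℤ × ℤ) ∈ Finset.Icc (-(10 * (n : ℤ))) (10 * n) ×ˢ
        Finset.Icc (-(10 * (n : ℤ))) (10 * n) := by
      rw [Finset.mem_product, Finset.mem_Icc, Finset.mem_Icc]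
      exact ⟨ha, hb⟩
    exact h (some ⟨(a, b), hq⟩) (Finset.mem_univ _)
  · intro x hx hxr
    have h0 : (Q ω ∩ atom n (k, none)).encard = 0 := h none (Finset.mem_univ _)
    rw [Set.encard_eq_zero, Set.eq_empty_iff_forall_notMem] at h0
    by_contra hcon
    push Not at hcon
    refine h0 x ⟨hx, hxr, ?_⟩
    intro hmem
    obtain ⟨q, hq⟩ := Set.mem_iUnion.1 hmem
    exact hcon q.1.1 q.1.2 q.abs.1 q.abs.2 hq

lemma tgt_meas {n : ℕ} (α : Option (Tidx n)) : MeasurableSet (tgt α) := MeasurableSet.of_discrete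

lemma evt_meas (hQ : IsPoissonProcess P lam Q) (n k : ℕ) : MeasurableSet (evt Q n k) :=
  Finset.measurableSet_biInter _ fun α _ =>
    (hQ.measurable_count _ (measurableSet_atom n (k, α))) (tgt_meas α)

lemma evt_prob (hQ : IsPoissonProcess P lam Q) {n : ℕ} (hn : 1 ≤ n) (k : ℕ) :
    P (evt Q n k) = ∏ α : Option (Tidx n), P ((fun ω => (Q ω ∩ atom n (k, α)).encard) ⁻¹' tgt α) := by
  have h1 := iIndep_counts hQ (B := fun α : Option (Tidx n) => atom n (k, α))
    (fun α => measurableSet_atom n _) (fun α α' h => atom_disjoint hn (fun h' => h (Prod.ext_iff.1 h').2))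
  rw [iIndepFun_iff_measure_inter_preimage_eq_mul] at h1
  exact h1 Finset.univ (sets := fun α => tgt α) (fun α _ => tgt_meas α)

lemma evt_indep (hQ : IsPoissonProcess P lam Q) {n : ℕ} (hn : 1 ≤ n) :
    iIndepSet (fun k => evt Q n k) P := by
  classical
  rw [iIndepSet_iff_meas_biInter (fun k => evt_meas hQ n k)]
  intro S
  have h1 := iIndep_counts hQ (B := fun i : ℕ × Option (Tidx n) => atom n i)
    (fun i => measurableSet_atom n i) (atom_disjoint hn)
  rw [iIndepFun_iff_measure_inter_preimage_eq_mul] at h1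
  have h2 := h1 (S ×ˢ (Finset.univ : Finset (Option (Tidx n)))) (sets := fun i => tgt i.2)
    (fun i _ => tgt_meas i.2)
  have e1 : (⋂ k ∈ S, evt Q n k) = ⋂ i ∈ S ×ˢ (Finset.univ : Finset (Option (Tidx n))),
      (fun ω => (Q ω ∩ atom n i).encard) ⁻¹' tgt i.2 := by
    ext ω
    simp only [evt, Set.mem_iInter, Finset.mem_product, Finset.mem_univ, and_true, true_imp_iff]
    constructor
    · intro h i hi
      exact h i.1 hi i.2
    · intro h k hk α
      exact h (k, α) hk
  rw [e1, h2, Finset.prod_product]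
  exact Finset.prod_congr rfl fun k _ => (evt_prob hQ hn k).symm

lemma evt_lower (hQ : IsPoissonProcess P lam Q) (hlam : 0 < lam) {n : ℕ} (hn : 1 ≤ n) :
    ∃ c : ℝ≥0∞, c ≠ 0 ∧ ∀ k, c ≤ P (evt Q n k) := by
  refine ⟨∏ α : Option (Tidx n), (match α with
    | some q => ENNReal.ofReal (Real.exp (-(lam * tv n q.1.2)) * (lam * tv n q.1.2))
    | none => ENNReal.ofReal (Real.exp (-(lam * (3 / 4))))), ?_, ?_⟩
  · rw [Finset.prod_ne_zero_iff]
    rintro (_ | q) _
    · simp only [ne_eq, ENNReal.ofReal_eq_zero, not_le]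
      exact Real.exp_pos _
    · simp only [ne_eq, ENNReal.ofReal_eq_zero, not_le]
      have := tv_pos hn q.abs.2
      positivity
  · intro k
    rw [evt_prob hQ hn k]
    apply Finset.prod_le_prod'
    rintro (_ | q) _
    · have hfin : volume (atom n (k, none)) ≠ ⊤ := by
        refine ne_top_of_le_ne_top ?_ (measure_mono (atom_subset hn (k, none)))
        rw [volume_region]
        exact ENNReal.ofReal_ne_top
      have h1 := hQ.law_count _ (measurableSet_atom n (k, none)) hfin 0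
      have h2 : (fun ω => (Q ω ∩ atom n (k, none)).encard) ⁻¹' tgt (none : Option (Tidx n))
          = {ω | (Q ω ∩ atom n (k, none)).encard = ((0 : ℕ) : ℕ∞)} := by
        ext ω
        simp [tgt]
      rw [h2, h1]
      apply ENNReal.ofReal_le_ofReal
      simp only [pow_zero, mul_one, Nat.factorial_zero, Nat.cast_one, div_one]
      apply Real.exp_le_exp.2
      have h3 : (volume (atom n (k, none))).toReal ≤ 3 / 4 := by
        have := ENNReal.toReal_mono (by rw [volume_region]; exact ENNReal.ofReal_ne_top)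
          (measure_mono (μ := volume) (atom_subset hn (k, none)))
        rwa [volume_region, ENNReal.toReal_ofReal (by norm_num)] at this
      nlinarith
    · have hv : volume (atom n (k, some q)) = ENNReal.ofReal (tv n q.1.2) := volume_tile hn q.abs.2
      have hfin : volume (atom n (k, some q)) ≠ ⊤ := by
        rw [hv]; exact ENNReal.ofReal_ne_top
      have h1 := hQ.law_count _ (measurableSet_atom n (k, some q)) hfin 1
      have h2 : (fun ω => (Q ω ∩ atom n (k, some q)).encard) ⁻¹' tgt (some q)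
          = {ω | (Q ω ∩ atom n (k, some q)).encard = ((1 : ℕ) : ℕ∞)} := by
        ext ω
        simp [tgt]
      rw [h2, h1, hv, ENNReal.toReal_ofReal (tv_pos hn q.abs.2).le]
      simp

lemma ae_planted (hQ : IsPoissonProcess P lam Q) (hlam : 0 < lam) {n : ℕ} (hn : 1 ≤ n) :
    ∀ᵐ ω ∂P, ∃ k : ℝ, Planted (Q ω) k n := by
  have hind := evt_indep hQ hn
  have hP := hind.isProbabilityMeasure
  obtain ⟨c, hc, hle⟩ := evt_lower hQ hlam hn
  have hsum : (∑' k, P (evt Q n k)) = ⊤ := by
    rw [← top_le_iff, ← ENNReal.tsum_const_eq_top_of_ne_zero (α := ℕ) hc]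
    exact ENNReal.tsum_le_tsum hle
  have h1 := measure_limsup_eq_one (fun k => evt_meas hQ n k) hind hsum
  have h2 : ∀ᵐ ω ∂P, ω ∈ Filter.limsup (fun k => evt Q n k) Filter.atTop := by
    rw [← prob_compl_eq_zero_iff (MeasurableSet.measurableSet_limsup (fun k => evt_meas hQ n k))] at h1
    exact h1
  filter_upwards [h2] with ω hω
  rw [Filter.mem_limsup_iff_frequently_mem] at hω
  obtain ⟨k, hk⟩ := hω.exists
  exact ⟨k, evt_planted hk⟩

/-- the main theorem -/
theorem main_ae [IsProbabilityMeasure P] (hQ : IsPoissonProcess P lam Q) (hlam : 0 < lam) :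
    ∀ᵐ ω ∂P, (Q ω).Nonempty ∧ (voronoiGraph (Q ω)).Connected ∧
      ∀ (x : Q ω) (δ : ℝ), ¬ AnchoredThin (voronoiGraph (Q ω)) x δ := by
  have h1 : ∀ᵐ ω ∂P, ∀ n : ℕ, 1 ≤ n → ∃ k : ℝ, Planted (Q ω) k n := by
    rw [ae_all_iff]
    intro n
    by_cases hn : 1 ≤ n
    · filter_upwards [ae_planted hQ hlam hn] with ω hω
      exact fun _ => hω
    · exact Filter.Eventually.of_forall fun ω h => absurd h hn
  filter_upwards [h1, ae_locFin hQ hlam, ae_nonempty hQ hlam] with ω hω hL hne
  have hG := connected_of_locFin hL hne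
  exact ⟨hne, hG, fun x δ => not_thin hL hG (fun m => ⟨m + 1, by omega, hω (m + 1) (by omega)⟩) x δ⟩

end Pool.Agent.V11329.Vor
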