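import Pool.Agent.V11329.Vor.Planted

/-! Upper bounds for graph distances inside planted pieces. -/

set_option autoImplicit false

namespace Pool.Agent.V11329.Vor

open UpperHalfPlane Pool.Agent.Y979.HV

/-- a parallelogram in lattice coordinates -/
def rect (k s a1 a2 b1 b2 : ℝ) : Set ℍ :=
  {z | (a1 < al k s z ∧ al k s z < a2) ∧ (b1 < be s z ∧ be s z < b2)}

lemma continuous_be (s : ℝ) : Continuous (be s) := by
  unfold be
  exact (UpperHalfPlane.continuous_im.sub continuous_const).div_const _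

lemma continuous_al (k s : ℝ) : Continuous (al k s) := by
  unfold al
  exact ((UpperHalfPlane.continuous_re.sub continuous_const).div_const _).sub
    ((continuous_be s).div_const _)

lemma isOpen_rect (k s a1 a2 b1 b2 : ℝ) : IsOpen (rect k s a1 a2 b1 b2) :=
  ((isOpen_lt continuous_const (continuous_al k s)).inter
    (isOpen_lt (continuous_al k s) continuous_const)).inter
    ((isOpen_lt continuous_const (continuous_be s)).inter
    (isOpen_lt (continuous_be s) continuous_const))

/-- the point with given lattice coordinates -/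
noncomputable def pt (k s a b : ℝ) (h : 0 < 1 + s * hh * b) : ℍ := ⟨⟨k + s * (a + b / 2), 1 + s * hh * b⟩, h⟩

lemma be_pt {k s a b : ℝ} (hs : 0 < s) (h : 0 < 1 + s * hh * b) : be s (pt k s a b h) = b := by
  show (1 + s * hh * b - 1) / (s * hh) = b
  have := hh_pos
  field_simp
  ring

lemma al_pt {k s a b : ℝ} (hs : 0 < s) (h : 0 < 1 + s * hh * b) : al k s (pt k s a b h) = a := by
  unfold al
  rw [be_pt hs]
  show (k + s * (a + b / 2) - k) / s - b / 2 = a
  field_simp
  ring

lemma eq_of_coords {k s : ℝ} (hs : 0 < s) {z w : ℍ} (h1 : al k s z = al k s w)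
    (h2 : be s z = be s w) : z = w := by
  have hp := hh_pos
  have h3 : z.im = w.im := by
    unfold be at h2
    have : z.im - 1 = w.im - 1 := by
      have h4 : s * hh ≠ 0 := by positivity
      field_simp at h2
      linarith
    linarith
  have h4 : z.re = w.re := by
    unfold al at h1
    rw [h2] at h1
    have h5 : (z.re - k) / s = (w.re - k) / s := by linarith
    have : z.re - k = w.re - k := by
      field_simp at h5
      linarith
    linarith
  exact UpperHalfPlane.ext (Complex.ext h4 h3)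

lemma rect_preconnected {k s a1 a2 b1 b2 : ℝ} (hs : 0 < s) (ha : a1 < a2) (hb : b1 < b2)
    (hpos : 0 < 1 + s * hh * b1) {B : Set ℍ} (hB : B.Finite) :
    IsPreconnected (rect k s a1 a2 b1 b2 \ B) := by
  obtain ⟨g, hg, hgi, hgr⟩ := exists_arc ha
  obtain ⟨f, hf, hfi, hfr⟩ := exists_arc hb
  have hgm : ∀ u, g u ∈ Set.Ioo a1 a2 := fun u => hgr ▸ Set.mem_range_self u
  have hfm : ∀ u, f u ∈ Set.Ioo b1 b2 := fun u => hfr ▸ Set.mem_range_self u
  have hp := hh_pos
  have hfp : ∀ u, 0 < 1 + s * hh * f u := by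
    intro u
    have := mul_lt_mul_of_pos_left (hfm u).1 (by positivity : 0 < s * hh)
    linarith
  let Φ : ℝ × ℝ → ℍ := fun p => pt k s (g p.1) (f p.2) (hfp p.2)
  have hΦc : Continuous Φ := by
    have h1 : Continuous fun p : ℝ × ℝ => g p.1 := hg.comp continuous_fst
    have h2 : Continuous fun p : ℝ × ℝ => f p.2 := hf.comp continuous_snd
    refine UpperHalfPlane.isEmbedding_coe.continuous_iff.mpr ?_
    have h4 : (UpperHalfPlane.coe ∘ Φ) = fun p : ℝ × ℝ =>
        ((k + s * (g p.1 + f p.2 / 2) : ℝ) : ℂ) +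
          ((1 + s * hh * f p.2 : ℝ) : ℂ) * Complex.I := by
      funext p
      apply Complex.ext
      · simp [Φ, pt]
      · simp [Φ, pt]
    rw [h4]
    exact (Complex.continuous_ofReal.comp (continuous_const.add
      (continuous_const.mul (h1.add (h2.div_const _))))).add
      ((Complex.continuous_ofReal.comp (continuous_const.add (continuous_const.mul h2))).mul
        continuous_const)
  have hΦi : Function.Injective Φ := by
    intro p q h
    have h1 : al k s (Φ p) = al k s (Φ q) := by rw [h]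
    have h2 : be s (Φ p) = be s (Φ q) := by rw [h]
    have e1 : al k s (Φ p) = g p.1 := al_pt hs _
    have e2 : al k s (Φ q) = g q.1 := al_pt hs _
    have e3 : be s (Φ p) = f p.2 := be_pt hs _
    have e4 : be s (Φ q) = f q.2 := be_pt hs _
    rw [e1, e2] at h1
    rw [e3, e4] at h2
    exact Prod.ext (hgi h1) (hfi h2)
  have hΦr : Set.range Φ = rect k s a1 a2 b1 b2 := by
    ext z
    constructor
    · rintro ⟨p, rfl⟩
      have e1 : al k s (Φ p) = g p.1 := al_pt hs _
      have e3 : be s (Φ p) = f p.2 := be_pt hs _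
      show (a1 < al k s (Φ p) ∧ al k s (Φ p) < a2) ∧ (b1 < be s (Φ p) ∧ be s (Φ p) < b2)
      rw [e1, e3]
      exact ⟨hgm p.1, hfm p.2⟩
    · rintro ⟨h1, h2⟩
      have m1 : al k s z ∈ Set.range g := by rw [hgr]; exact h1
      have m2 : be s z ∈ Set.range f := by rw [hfr]; exact h2
      obtain ⟨u, hu⟩ := m1
      obtain ⟨v, hv⟩ := m2
      refine ⟨(u, v), eq_of_coords hs (k := k) ?_ ?_⟩
      · rw [← hu]; exact al_pt hs _
      · rw [← hv]; exact be_pt hs _
  have himg : rect k s a1 a2 b1 b2 \ B = Φ '' (Φ ⁻¹' B)ᶜ := by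
    rw [← hΦr]
    ext z
    constructor
    · rintro ⟨⟨p, rfl⟩, h⟩
      exact ⟨p, h, rfl⟩
    · rintro ⟨p, h, rfl⟩
      exact ⟨⟨p, rfl⟩, h⟩
  rw [himg]
  have hcount : (Φ ⁻¹' B).Countable := (hB.preimage hΦi.injOn).countable
  have hrank : 1 < Module.rank ℝ (ℝ × ℝ) := by
    rw [rank_prod', Module.rank_self, one_add_one_eq_two]
    exact Cardinal.one_lt_two
  exact (hcount.isConnected_compl_of_one_lt_rank hrank).isPreconnected.image Φ hΦc.continuousOn

variable {A : Set ℍ} {k : ℝ} {n : ℕ}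

lemma tile_coords (hn : 1 ≤ n) {a b : ℤ} {x : ℍ} (hx : x ∈ tile k n a b) :
    |al k (sp n) x - a| < 1 / 50 ∧ |be (sp n) x - b| < 1 / 50 := by
  have hs := sp_pos hn
  have h1 := Qf_le_of_dist hs (tile_dist hn hx)
  have h2 := Qf_ge_left (al k (sp n) x - a) (be (sp n) x - b)
  have h3 := Qf_ge_right (al k (sp n) x - a) (be (sp n) x - b)
  constructor
  · apply abs_lt_of_sq_lt_sq _ (by norm_num)
    nlinarith
  · apply abs_lt_of_sq_lt_sq _ (by norm_num)
    nlinarith

/-- graph distances along lattice rectangles -/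
lemma Planted.rect_dist (hA : Planted A k n) (hn : 2 ≤ n) (hL : LocFin A) {a1 a2 b1 b2 : ℤ}
    (ha1 : 0 ≤ a1) (ha : a1 ≤ a2) (ha2 : a2 ≤ n) (hb1 : 0 ≤ b1) (hb : b1 ≤ b2) (hb2 : b2 ≤ n)
    {u v : A} (hu : (u : ℍ) ∈ tile k n a1 b1) (hv : (v : ℍ) ∈ tile k n a2 b2) :
    (voronoiGraph A).dist u v + 1 ≤ (Finset.Icc a1 a2 ×ˢ Finset.Icc b1 b2).card := by
  classical
  have hs := sp_pos (n := n) (by omega)
  have hs2 := sp_le hn
  have hsn := sp_mul (n := n) (by omega)
  have hp := hh_pos
  have hup := hh_upper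
  have ha1' : (0 : ℝ) ≤ a1 := by exact_mod_cast ha1
  have ha2' : (a2 : ℝ) ≤ n := by exact_mod_cast ha2
  have ha' : (a1 : ℝ) ≤ a2 := by exact_mod_cast ha
  have hb1' : (0 : ℝ) ≤ b1 := by exact_mod_cast hb1
  have hb2' : (b2 : ℝ) ≤ n := by exact_mod_cast hb2
  have hb' : (b1 : ℝ) ≤ b2 := by exact_mod_cast hb
  have hn2 : (2 : ℝ) ≤ n := by exact_mod_cast hn
  set U := rect k (sp n) (a1 - 1 / 50) (a2 + 1 / 50) (b1 - 1 / 50) (b2 + 1 / 50) with hU
  have huU : (u : ℍ) ∈ U := by
    obtain ⟨h1, h2⟩ := tile_coords (by omega) hu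
    rw [abs_lt] at h1 h2
    refine ⟨⟨?_, ?_⟩, ?_, ?_⟩ <;> linarith [h1.1, h1.2, h2.1, h2.2]
  have hvU : (v : ℍ) ∈ U := by
    obtain ⟨h1, h2⟩ := tile_coords (by omega) hv
    rw [abs_lt] at h1 h2
    refine ⟨⟨?_, ?_⟩, ?_, ?_⟩ <;> linarith [h1.1, h1.2, h2.1, h2.2]
  -- points of `U` are in the inner box
  have hUin : ∀ z ∈ U, inn k (5 / 100000) z := by
    rintro z ⟨⟨h1, h2⟩, h3, h4⟩
    have e1 : z.re - k = sp n * (al k (sp n) z + be (sp n) z / 2) := by
      unfold al
      field_simp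
      ring
    have e2 : z.im - 1 = sp n * hh * be (sp n) z := by
      unfold be
      field_simp
    constructor
    · rw [e1, abs_le]
      have c1 : al k (sp n) z + be (sp n) z / 2 ≤ 3 / 2 * n + 3 / 100 := by linarith
      have c2 : -(3 / 100) ≤ al k (sp n) z + be (sp n) z / 2 := by linarith
      have d1 := mul_le_mul_of_nonneg_left c1 hs.le
      have d2 := mul_le_mul_of_nonneg_left c2 hs.le
      constructor
      · nlinarith
      · nlinarith
    · rw [e2, abs_le]
      have c1 : be (sp n) z ≤ n + 1 / 50 := by linarith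
      have c2 : -(1 / 50) ≤ be (sp n) z := by linarith
      have hsh : 0 < sp n * hh := by positivity
      have hsh2 : sp n * hh ≤ sp n * 1 := by nlinarith
      have d1 := mul_le_mul_of_nonneg_left c1 hsh.le
      have d2 := mul_le_mul_of_nonneg_left c2 hsh.le
      constructor
      · nlinarith
      · nlinarith
  -- the nuclei
  have hnuc : ∀ q : ℤ × ℤ, q ∈ Finset.Icc a1 a2 ×ˢ Finset.Icc b1 b2 →
      ∃ x : A, ∀ y : A, (y : ℍ) ∈ tile k n q.1 q.2 → y = x := by
    intro q hq
    rw [Finset.mem_product, Finset.mem_Icc, Finset.mem_Icc] at hq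
    obtain ⟨x, hx⟩ := Set.encard_eq_one.1 (hA.one q.1 q.2
      (by rw [abs_le]; constructor <;> omega) (by rw [abs_le]; constructor <;> omega))
    have hxm : x ∈ A ∩ tile k n q.1 q.2 := by rw [hx]; rfl
    refine ⟨⟨x, hxm.1⟩, fun y hy => ?_⟩
    have : (y : ℍ) ∈ A ∩ tile k n q.1 q.2 := ⟨y.2, hy⟩
    rw [hx] at this
    exact Subtype.ext this
  have hneA : Nonempty A := ⟨u⟩
  choose! F hF using hnuc
  have hsub : meeting A U ⊆ ((Finset.Icc a1 a2 ×ˢ Finset.Icc b1 b2).image F : Finset A) := by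
    rintro x ⟨z, hzU, hzc⟩
    obtain ⟨-, a, b, -, -, hab, hQ⟩ := hA.near hn (hUin z hzU) x.2 hzc
    have q1 := Qf_ge_left (al k (sp n) z - a) (be (sp n) z - b)
    have q2 := Qf_ge_right (al k (sp n) z - a) (be (sp n) z - b)
    have r1 : |al k (sp n) z - a| < 73 / 100 := by
      apply abs_lt_of_sq_lt_sq _ (by norm_num)
      nlinarith
    have r2 : |be (sp n) z - b| < 73 / 100 := by
      apply abs_lt_of_sq_lt_sq _ (by norm_num)
      nlinarith
    obtain ⟨⟨h1, h2⟩, h3, h4⟩ := hzU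
    rw [abs_lt] at r1 r2
    have m1 : a1 ≤ a := by
      have : (a1 : ℝ) < a + 1 := by linarith [r1.1, r1.2]
      have : a1 < a + 1 := by exact_mod_cast this
      omega
    have m2 : a ≤ a2 := by
      have : (a : ℝ) < a2 + 1 := by linarith [r1.1, r1.2]
      have : a < a2 + 1 := by exact_mod_cast this
      omega
    have m3 : b1 ≤ b := by
      have : (b1 : ℝ) < b + 1 := by linarith [r2.1, r2.2]
      have : b1 < b + 1 := by exact_mod_cast this
      omega
    have m4 : b ≤ b2 := by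
      have : (b : ℝ) < b2 + 1 := by linarith [r2.1, r2.2]
      have : b < b2 + 1 := by exact_mod_cast this
      omega
    have hq : ((a, b) : ℤ × ℤ) ∈ Finset.Icc a1 a2 ×ˢ Finset.Icc b1 b2 := by
      rw [Finset.mem_product, Finset.mem_Icc, Finset.mem_Icc]
      exact ⟨⟨m1, m2⟩, m3, m4⟩
    rw [Finset.coe_image]
    exact ⟨(a, b), hq, (hF (a, b) hq x hab).symm⟩
  have hfin : (meeting A U).Finite := (Finset.finite_toSet _).subset hsub
  have hposb : 0 < 1 + sp n * hh * ((b1 : ℝ) - 1 / 50) := by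
    have hsh : 0 < sp n * hh := by positivity
    have hsh2 : sp n * hh ≤ sp n * 1 := mul_le_mul_of_nonneg_left (by linarith) hs.le
    have d1 := mul_le_mul_of_nonneg_left (by linarith : -(1 / 50) ≤ (b1 : ℝ) - 1 / 50) hsh.le
    linarith
  obtain ⟨p, hpl⟩ := exists_walk_meeting hL (isOpen_rect _ _ _ _ _ _)
    (fun B hB => rect_preconnected hs (by linarith) (by linarith) hposb hB) hfin
    (x := u) (y := v) ⟨u, huU, mem_cell_self⟩ ⟨v, hvU, mem_cell_self⟩
  have h1 : (meeting A U).ncard ≤ (Finset.Icc a1 a2 ×ˢ Finset.Icc b1 b2).card := by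
    refine (Set.ncard_le_ncard hsub (Finset.finite_toSet _)).trans ?_
    rw [Set.ncard_coe_finset]
    exact Finset.card_image_le
  have h2 := SimpleGraph.dist_le p
  exact Nat.succ_le_of_lt (lt_of_le_of_lt h2 (lt_of_lt_of_le hpl h1))

end Pool.Agent.V11329.Vor
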