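import Mathlib

/-! Geodesic triangles in graphs: definitions. -/

set_option autoImplicit false

namespace Pool.Agent.V11329.Vor

variable {V : Type*}

/-- a walk is a geodesic if its length is the graph distance of its endpoints -/
def IsGeod (G : SimpleGraph V) {x y : V} (p : G.Walk x y) : Prop := p.length = G.dist x y

/-- the triangle with sides `p`, `q`, `r` is `δ`-thin: each side lies in the closed
`δ`-neighbourhood of the union of the two other sides -/
def IsThin (G : SimpleGraph V) (δ : ℝ) {x y z : V} (p : G.Walk x y) (q : G.Walk y z)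
    (r : G.Walk z x) : Prop :=
  (∀ v ∈ p.support, ∃ w, (w ∈ q.support ∨ w ∈ r.support) ∧ (G.dist v w : ℝ) ≤ δ) ∧
  (∀ v ∈ q.support, ∃ w, (w ∈ r.support ∨ w ∈ p.support) ∧ (G.dist v w : ℝ) ≤ δ) ∧
  (∀ v ∈ r.support, ∃ w, (w ∈ p.support ∨ w ∈ q.support) ∧ (G.dist v w : ℝ) ≤ δ)

/-- all geodesic triangles with vertex `x` are `δ`-thin -/
def AnchoredThin (G : SimpleGraph V) (x : V) (δ : ℝ) : Prop :=
  ∀ (y z : V) (p : G.Walk x y) (q : G.Walk y z) (r : G.Walk z x),
    IsGeod G p → IsGeod G q → IsGeod G r → IsThin G δ p q r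

end Pool.Agent.V11329.Vor
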