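import Pool.Agent.V11329.Vor.Rect

/-! Planted pieces violate the four-point condition. -/

set_option autoImplicit false

namespace Pool.Agent.V11329.Vor

open UpperHalfPlane Pool.Agent.Y979.HV

variable {A : Set ℍ} {k : ℝ} {n : ℕ}

lemma exists_nuc (hA : Planted A k n) {a b : ℤ} (ha : |a| ≤ 10 * n) (hb : |b| ≤ 10 * n) :
    ∃ x : A, (x : ℍ) ∈ tile k n a b := by
  obtain ⟨x, hx⟩ := Set.encard_eq_one.1 (hA.one a b ha hb)
  have hxm : x ∈ A ∩ tile k n a b := by rw [hx]; rfl
  exact ⟨⟨x, hxm.1⟩, hxm.2⟩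

lemma ctr_coe (k s : ℝ) : ((ctr k : ℍ) : ℂ) = pc k s 0 0 := by
  apply Complex.ext
  · show k = k + s * (0 + 0 / 2); ring
  · show (1 : ℝ) = 1 + s * hh * 0; ring

/-- lower bound for graph distances between nuclei of the planted piece -/
lemma Planted.lower (hA : Planted A k n) (hn : 2 ≤ n) (hG : (voronoiGraph A).Connected)
    {a b a' b' : ℤ} (hb : |b| ≤ 10 * n) (hb' : |b'| ≤ 10 * n)
    {u v : A} (hu : (u : ℍ) ∈ tile k n a b) (hv : (v : ℍ) ∈ tile k n a' b') {c c' : ℝ}
    (hc : 0 ≤ c) (hQ : c ^ 2 ≤ Qf (a - a') (b - b')) (hc' : 0 ≤ c')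
    (hQ' : Qf (a - a') (b - b') ≤ c' ^ 2) (hcn : c' ≤ 174 / 100 * n)
    (h0 : Qf (0 - a) (0 - b) ≤ n ^ 2) :
    (c - 1 / 25) / (1212 / 1000) ≤ ((voronoiGraph A).dist u v : ℝ) := by
  have hs := sp_pos (n := n) (by omega)
  have hs2 := sp_le hn
  have hsn := sp_mul (n := n) (by omega)
  have hn0 : (0 : ℝ) ≤ n := Nat.cast_nonneg _
  have t1 := tile_dist (by omega) hu
  have t2 := tile_dist (by omega) hv
  have i1 := tile_im (by omega) hb hu
  have i2 := tile_im (by omega) hb' hv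
  have hpp := dist_pc_pc k (sp n) a b a' b'
  have e1 : dist (pc k (sp n) a b) (pc k (sp n) a' b') ≤ c' * sp n := by
    apply (abs_le_of_sq_le_sq' _ (by positivity)).2
    rw [hpp, mul_pow, mul_comm]
    exact mul_le_mul_of_nonneg_right hQ' (by positivity)
  have e2 : c * sp n ≤ dist (pc k (sp n) a b) (pc k (sp n) a' b') := by
    apply (abs_le_of_sq_le_sq' _ dist_nonneg).2
    rw [hpp, mul_pow, mul_comm]
    exact mul_le_mul_of_nonneg_left hQ (by positivity)
  have e3 : dist ((u : ℍ) : ℂ) v ≤ 71 / 5000 * sp n + c' * sp n + 71 / 5000 * sp n := by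
    have d1 := dist_triangle ((u : ℍ) : ℂ) (pc k (sp n) a b) ((v : ℍ) : ℂ)
    have d2 := dist_triangle (pc k (sp n) a b) (pc k (sp n) a' b') ((v : ℍ) : ℂ)
    rw [dist_comm (pc k (sp n) a' b')] at d2
    linarith
  have e4 : c * sp n - 71 / 2500 * sp n ≤ dist ((u : ℍ) : ℂ) v := by
    have d1 := dist_triangle (pc k (sp n) a b) ((u : ℍ) : ℂ) (pc k (sp n) a' b')
    have d2 := dist_triangle ((u : ℍ) : ℂ) ((v : ℍ) : ℂ) (pc k (sp n) a' b')
    rw [dist_comm (pc k (sp n) a b) ((u : ℍ) : ℂ)] at d1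
    linarith
  have e5 : c' * sp n ≤ 174 / 100 * (1 / 100000) := by
    calc c' * sp n ≤ 174 / 100 * n * sp n := by gcongr
      _ = 174 / 100 * (sp n * n) := by ring
      _ = _ := by rw [hsn]
  have hup : dist (u : ℍ) v ≤ 20 / 1000000 := by
    refine (dist_le_of i1.1 i2.1).trans ?_
    linarith
  have hctr : dist (ctr k) u ≤ 19 / 1000000 := by
    refine (dist_le_of (z := ctr k) (by show (399 / 400 : ℝ) ≤ 1; norm_num) i1.1).trans ?_
    have f1 : dist (pc k (sp n) 0 0) (pc k (sp n) a b) ≤ n * sp n := by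
      apply (abs_le_of_sq_le_sq' _ (by positivity)).2
      rw [dist_pc_pc, mul_pow, mul_comm]
      exact mul_le_mul_of_nonneg_right h0 (by positivity)
    have f2 := dist_triangle (pc k (sp n) 0 0) (pc k (sp n) a b) ((u : ℍ) : ℂ)
    rw [dist_comm (pc k (sp n) a b) ((u : ℍ) : ℂ)] at f2
    rw [ctr_coe k (sp n)]
    have f3 : (n : ℝ) * sp n = 1 / 100000 := by rw [mul_comm, hsn]
    linarith
  have key := hA.dist_lower hn hG hctr hup
  have e6 := E_le_of i1.2 i2.2 (hup.trans (by norm_num))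
  rw [div_le_iff₀ (by norm_num)]
  set m := ((voronoiGraph A).dist u v : ℝ) with hm
  have e7 : (c - 71 / 2500) * sp n ≤ (m * (1212 / 1000)) * sp n := by nlinarith
  have e8 := le_of_mul_le_mul_right e7 hs
  linarith

/-- the violation of the four-point condition -/
theorem Planted.violation (hA : Planted A k n) (hn : 2 ≤ n) (hL : LocFin A)
    (hG : (voronoiGraph A).Connected) : ∃ a b c d : A,
      D (voronoiGraph A) a b ≤ n ∧ D (voronoiGraph A) c d ≤ n ∧
      D (voronoiGraph A) a d ≤ n ∧ D (voronoiGraph A) b c ≤ n ∧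
      9 / 4 * (n : ℝ) - 1 ≤ D (voronoiGraph A) a c + D (voronoiGraph A) b d := by
  have hn0 : (0 : ℤ) ≤ n := Int.natCast_nonneg n
  have hz : |(0 : ℤ)| ≤ 10 * n := by rw [abs_zero]; omega
  have hnn : |(n : ℤ)| ≤ 10 * n := by rw [abs_of_nonneg hn0]; omega
  obtain ⟨a, ha⟩ := exists_nuc hA hz hz
  obtain ⟨b, hb⟩ := exists_nuc hA hnn hz
  obtain ⟨c, hc⟩ := exists_nuc hA hnn hnn
  obtain ⟨d, hd⟩ := exists_nuc hA hz hnn
  have hnr : (2 : ℝ) ≤ n := by exact_mod_cast hn
  have card1 : (Finset.Icc (0 : ℤ) n).card = n + 1 := by simp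
  refine ⟨a, b, c, d, ?_, ?_, ?_, ?_, ?_⟩
  · have h := hA.rect_dist hn hL le_rfl hn0 le_rfl le_rfl le_rfl hn0 ha hb
    rw [Finset.card_product, card1, Finset.Icc_self, Finset.card_singleton] at h
    unfold D
    have : (voronoiGraph A).dist a b ≤ n := by omega
    exact_mod_cast this
  · have h := hA.rect_dist hn hL le_rfl hn0 le_rfl hn0 le_rfl le_rfl hd hc
    rw [Finset.card_product, card1, Finset.Icc_self, Finset.card_singleton] at h
    rw [D_comm]
    unfold D
    have : (voronoiGraph A).dist d c ≤ n := by omega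
    exact_mod_cast this
  · have h := hA.rect_dist hn hL le_rfl le_rfl hn0 le_rfl hn0 le_rfl ha hd
    rw [Finset.card_product, card1, Finset.Icc_self, Finset.card_singleton] at h
    unfold D
    have : (voronoiGraph A).dist a d ≤ n := by omega
    exact_mod_cast this
  · have h := hA.rect_dist hn hL hn0 le_rfl le_rfl le_rfl hn0 le_rfl hb hc
    rw [Finset.card_product, card1, Finset.Icc_self, Finset.card_singleton] at h
    unfold D
    have : (voronoiGraph A).dist b c ≤ n := by omega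
    exact_mod_cast this
  · have h1 := hA.lower hn hG hz hnn ha hc (c := 1732 / 1000 * n) (c' := 1733 / 1000 * n)
      (by positivity) (by unfold Qf; push_cast; nlinarith) (by positivity)
      (by unfold Qf; push_cast; nlinarith) (by nlinarith) (by unfold Qf; push_cast; nlinarith)
    have h2 := hA.lower hn hG hz hnn hb hd (c := n) (c' := n)
      (by positivity) (by unfold Qf; push_cast; nlinarith) (by positivity)
      (by unfold Qf; push_cast; nlinarith) (by nlinarith) (by unfold Qf; push_cast; nlinarith)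
    unfold D
    have h3 : (1732 / 1000 * (n : ℝ) - 1 / 25) / (1212 / 1000) + (n - 1 / 25) / (1212 / 1000)
        ≥ 9 / 4 * n - 1 := by
      rw [ge_iff_le, ← add_div, le_div_iff₀ (by norm_num)]
      linarith
    linarith

/-- a point set with planted pieces of all sizes is not thin at any vertex -/
theorem not_thin (hL : LocFin A) (hG : (voronoiGraph A).Connected)
    (h : ∀ m : ℕ, ∃ n : ℕ, m ≤ n ∧ ∃ k : ℝ, Planted A k n) (x : A) (δ : ℝ) :
    ¬ AnchoredThin (voronoiGraph A) x δ := by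
  intro hthin
  set δ' := max δ 0 with hδ'
  have hthin' : AnchoredThin (voronoiGraph A) x δ' := by
    intro y z p q r hp hq hr
    obtain ⟨h1, h2, h3⟩ := hthin y z p q r hp hq hr
    refine ⟨fun v hv => ?_, fun v hv => ?_, fun v hv => ?_⟩
    · obtain ⟨w, hw, hd⟩ := h1 v hv
      exact ⟨w, hw, hd.trans (le_max_left _ _)⟩
    · obtain ⟨w, hw, hd⟩ := h2 v hv
      exact ⟨w, hw, hd.trans (le_max_left _ _)⟩
    · obtain ⟨w, hw, hd⟩ := h3 v hv
      exact ⟨w, hw, hd.trans (le_max_left _ _)⟩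
  have hδ0 : 0 ≤ δ' := le_max_right _ _
  obtain ⟨n, hn, k, hA⟩ := h (⌈4 * (4 * (3 * δ' + 1) + 1)⌉₊ + 3)
  have hn' : 4 * (4 * (3 * δ' + 1) + 1) + 3 ≤ (n : ℝ) := by
    have h1 := Nat.le_ceil (4 * (4 * (3 * δ' + 1) + 1))
    have h2 : ((⌈4 * (4 * (3 * δ' + 1) + 1)⌉₊ + 3 : ℕ) : ℝ) ≤ n := by exact_mod_cast hn
    push_cast at h2
    linarith
  obtain ⟨a, b, c, d, h1, h2, h3, h4, h5⟩ := hA.violation (by omega) hL hG
  have h6 := four_point hG hδ0 hthin' a c b d
  rw [D_comm c b] at h6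
  have h7 : max (D (voronoiGraph A) a b + D (voronoiGraph A) c d)
      (D (voronoiGraph A) a d + D (voronoiGraph A) b c) ≤ 2 * n := by
    apply max_le <;> linarith
  linarith

end Pool.Agent.V11329.Vor
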